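import Pool.Agent.MWA.StmtsP

/-!
# MWA row MUY: a repeated letter can be appended
-/

namespace Pool.Agent.MWA.H64

open Pool.Agent.Helper14_MV Pool.Agent.Helper2_MV Pool.Agent.MWA

theorem muy (hX : MuxStmt) : MuyStmt := by
  intro u c m hc
  obtain ⟨-, -, h3, -⟩ := hX
  have hcount : ∀ x, (u ++ List.replicate m c).count x = u.count x + if c = x then m else 0 := by
    intro x
    rw [List.count_append, List.count_replicate]
    simp
  refine h3 u _ ?_ ?_
  · intro x
    rw [hcount x]
    by_cases hx : c = x
    · subst hx
      rw [if_pos rfl]
      omega
    · rw [if_neg hx, add_zero]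
  · rw [List.filter_append]
    have h4 : (List.replicate m c).filter
        (fun x => decide ((u ++ List.replicate m c).count x = 1)) = [] := by
      rw [List.filter_eq_nil_iff]
      intro x hx
      have hxc : x = c := List.eq_of_mem_replicate hx
      subst hxc
      have h5 := hcount x
      rw [if_pos rfl] at h5
      simp only [decide_eq_true_eq]
      omega
    rw [h4, List.append_nil]
    refine List.filter_congr fun x _ => ?_
    have h5 := hcount x
    by_cases hx : c = x
    · subst hx
      rw [if_pos rfl] at h5
      have h6 : ¬ u.count c = 1 := by omega
      have h7 : ¬ (u ++ List.replicate m c).count c = 1 := by omega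
      rw [decide_eq_false h6, decide_eq_false h7]
    · rw [if_neg hx, add_zero] at h5
      rw [h5]

end Pool.Agent.MWA.H64
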